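import Mathlib

/-!
# Polynomial-time reductions and the class NP, on Mathlib's Turing machines

Languages are sets of bit strings. Polynomial-time computability is Mathlib's
`Turing.TM2ComputableInPolyTime` (multi-stack Turing machines with a polynomial time bound).
-/

namespace Pool.Agent.CookLevin

/-- `f` is computed by a polynomial-time Turing machine; inputs and outputs are bit strings. -/
def PolyTimeComputable (f : List Bool → List Bool) : Prop :=
  Nonempty (Turing.TM2ComputableInPolyTime (fun x : List Bool => x) (fun y : List Bool => y) f)

/-- The code of a pair of bit strings `(x, u)`: each bit of `x` is preceded by `1`, then `0` and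
`u` follow. -/
def pairWord (q : List Bool × List Bool) : List Bool :=
  q.1.flatMap (fun b => [true, b]) ++ false :: q.2

/-- The predicate `V` on pairs of bit strings is decided by a polynomial-time Turing machine; the
input is the code of the pair, the output is a single bit. -/
def PolyTimeDecidable (V : List Bool × List Bool → Bool) : Prop :=
  Nonempty (Turing.TM2ComputableInPolyTime pairWord (fun b : Bool => [b]) V)

/-- The class NP: `x` belongs to the language `L` iff the polynomial-time verifier `V` accepts
`(x, u)` for some certificate `u` of length `p(|x|)`. -/
def InNP (L : Set (List Bool)) : Prop :=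
  ∃ (p : Polynomial ℕ) (V : List Bool × List Bool → Bool), PolyTimeDecidable V ∧
    ∀ x, x ∈ L ↔ ∃ u : List Bool, u.length = p.eval x.length ∧ V (x, u) = true

/-- `L` is NP-hard: every language in NP has a polynomial-time many-one reduction to `L`. -/
def NPHard (L : Set (List Bool)) : Prop :=
  ∀ L' : Set (List Bool), InNP L' →
    ∃ f : List Bool → List Bool, PolyTimeComputable f ∧ ∀ x, x ∈ L' ↔ f x ∈ L

/-- `L` is NP-complete. -/
def NPComplete (L : Set (List Bool)) : Prop := InNP L ∧ NPHard L

end Pool.Agent.CookLevin
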