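import Pool.Agent.Lib.PolyTime.Lists

/-!
# Natural numbers in unary, and more polynomial-time combinators
-/

namespace Pool.Agent.PolyTime

/-- Natural numbers are encoded in unary. -/
instance instEncNatUnary : Enc ℕ := ⟨fun n => enc (List.replicate n ())⟩

theorem enc_nat (n : ℕ) : enc n = enc (List.replicate n ()) := rfl

theorem size_nat (n : ℕ) : size (enc n) = 2 * n + 1 := by
  rw [enc_nat]
  induction n with
  | zero => rfl
  | succ n ih =>
    rw [List.replicate_succ, size_lcons, ih]
    change 1 + (2 * n + 1) + 1 = 2 * (n + 1) + 1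
    omega

instance : EncInj ℕ := ⟨fun a b h => by
  have := congrArg List.length (EncInj.inj (α := List Unit) h)
  simpa using this⟩

section
variable {α β γ : Type} [Enc α] [Enc β] [Enc γ]

theorem PTime.toUnary {f : α → ℕ} (hf : PTime f) : PTime (fun a => List.replicate (f a) ()) :=
  hf.of_enc_eq (fun x => x) (fun _ => rfl) (fun _ => rfl)

theorem unit_list_eq (l : List Unit) : l = List.replicate l.length () := by
  rw [List.eq_replicate_iff]
  exact ⟨rfl, fun b _ => rfl⟩

theorem PTime.lengthUnit {f : α → List Unit} (hf : PTime f) : PTime (fun a => (f a).length) :=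
  hf.of_enc_eq (fun x => x) (fun _ => rfl) (fun a => by rw [enc_nat, ← unit_list_eq])

theorem PTime.length {f : α → List β} (hf : PTime f) : PTime (fun a => (f a).length) := by
  have h : PTime (fun a => (f a).map (fun _ => ())) :=
    PTime.map (g := fun (_ : α) (_ : β) => ()) hf (PTime.const ())
  exact h.lengthUnit.of_eq fun a => by simp

theorem PTime.add {f g : α → ℕ} (hf : PTime f) (hg : PTime g) : PTime (fun a => f a + g a) :=
  (hf.toUnary.append hg.toUnary).lengthUnit.of_eq fun a => by simp

theorem PTime.succ {f : α → ℕ} (hf : PTime f) : PTime (fun a => f a + 1) :=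
  hf.add (PTime.const 1)

theorem PTime.mul {f g : α → ℕ} (hf : PTime f) (hg : PTime g) : PTime (fun a => f a * g a) := by
  have h : PTime₂ (fun (a : α) (_ : Unit) => List.replicate (g a) ()) :=
    hg.toUnary.comp PTime.fst
  refine (PTime.flatMap hf.toUnary h).lengthUnit.of_eq fun a => ?_
  rw [List.length_flatMap]
  simp

theorem PTime.evalPoly {f : α → ℕ} (hf : PTime f) (p : Polynomial ℕ) :
    PTime (fun a => p.eval (f a)) := by
  induction p using Polynomial.induction_on' with
  | add p q hp hq => exact (hp.add hq).of_eq fun a => by rw [Polynomial.eval_add]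
  | monomial n c =>
    induction n with
    | zero => exact (PTime.const c).of_eq fun a => by simp
    | succ n ih =>
      refine (ih.mul hf).of_eq fun a => ?_
      rw [Polynomial.eval_monomial, Polynomial.eval_monomial, pow_succ, mul_assoc]

/-- Pairing the elements of a list with their positions. -/
theorem PTime.zipIdx {f : α → List β} (hf : PTime f) : PTime (fun a => (f a).zipIdx) := by
  obtain ⟨F, hF, hFm, hFs⟩ := hf.size_le
  have hinit : PTime (fun _ : α => ((0 : ℕ), ([] : List (β × ℕ)))) := PTime.const _
  have hstep : PTime (fun p : α × ((ℕ × List (β × ℕ)) × β) =>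
      (p.2.1.1 + 1, (p.2.2, p.2.1.1) :: p.2.1.2)) := by
    have e1 : PTime (fun p : α × ((ℕ × List (β × ℕ)) × β) => p.2.1.1) :=
      PTime.fst.comp (PTime.fst.comp PTime.snd)
    have e2 : PTime (fun p : α × ((ℕ × List (β × ℕ)) × β) => p.2.1.2) :=
      PTime.snd.comp (PTime.fst.comp PTime.snd)
    have e3 : PTime (fun p : α × ((ℕ × List (β × ℕ)) × β) => p.2.2) :=
      PTime.snd.comp PTime.snd
    exact e1.succ.pair ((e3.pair e1).cons e2)
  have key : ∀ (l : List β) (n : ℕ) (acc : List (β × ℕ)),
      l.foldl (fun (s : ℕ × List (β × ℕ)) (x : β) => (s.1 + 1, (x, s.1) :: s.2)) (n, acc) =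
        (n + l.length, (l.zipIdx n).reverse ++ acc) := by
    intro l
    induction l with
    | nil => intro n acc; simp
    | cons x l ih =>
      intro n acc
      rw [List.foldl_cons, ih]
      simp only [List.length_cons, List.zipIdx_cons, List.reverse_cons, List.append_assoc,
        List.singleton_append, Prod.mk.injEq, and_true]
      omega
  have hfold := PTime.foldl (h := fun (_ : α) (s : ℕ × List (β × ℕ)) (x : β) =>
    (s.1 + 1, (x, s.1) :: s.2)) hf hinit hstep
    (B := fun n => (2 * F n + 1) + (F n * (F n + 2 * F n + 2 + 1) + 1) + 1) ?_ ?_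
  · refine (PTime.snd.comp hfold).reverse.of_eq fun a => ?_
    rw [key]
    simp
  · exact ((((PBd.const 2).mul hF).add (PBd.const 1)).add ((hF.mul (((hF.add
      ((PBd.const 2).mul hF)).add (PBd.const 2)).add (PBd.const 1))).add (PBd.const 1))).add
      (PBd.const 1)
  · intro a l₁ l₂ h
    rw [key, size_pair, size_nat, List.append_nil]
    have h1 : l₁.length ≤ F (size (enc a)) := by
      have h2 := length_le_size (f a)
      have h3 := hFs a
      have h4 : l₁.length ≤ (f a).length := by rw [h]; simp
      omega
    have h5 : size (enc ((l₁.zipIdx 0).reverse)) ≤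
        ((l₁.zipIdx 0).reverse).length * ((F (size (enc a)) + 2 * F (size (enc a)) + 2) + 1) +
          1 := by
      apply size_list_le
      intro x hx
      obtain ⟨b, i⟩ := x
      rw [List.mem_reverse, List.mk_mem_zipIdx_iff_getElem?] at hx
      rw [size_pair, size_nat]
      have h6 : b ∈ f a := by rw [h]; exact List.mem_append_left _ (List.mem_of_getElem? hx)
      have h7 := size_le_of_mem h6
      have h8 := hFs a
      have h9 : i < l₁.length := (List.getElem?_eq_some_iff.1 hx).1
      omega
    rw [List.length_reverse, List.length_zipIdx] at h5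
    have h10 := Nat.mul_le_mul_right ((F (size (enc a)) + 2 * F (size (enc a)) + 2) + 1) h1
    omega

theorem PTime.range {f : α → ℕ} (hf : PTime f) : PTime (fun a => List.range (f a)) := by
  have h : PTime₂ (fun (_ : α) (p : Unit × ℕ) => p.2) := PTime.snd.comp PTime.snd
  refine (PTime.map hf.toUnary.zipIdx h).of_eq fun a => ?_
  rw [List.range_eq_range']
  have := List.zipIdx_map_snd 0 (List.replicate (f a) ())
  simpa using this

/-- A list with a fixed number of entries, each computed in polynomial time. -/
theorem PTime.mapConst {X : Type} (L : List X) {g : X → α → β} (hg : ∀ x ∈ L, PTime (g x)) :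
    PTime (fun a => L.map (fun x => g x a)) := by
  induction L with
  | nil => exact PTime.const []
  | cons x L ih =>
    exact (hg x List.mem_cons_self).cons (ih fun y hy => hg y (List.mem_cons_of_mem _ hy))

theorem PTime.flatMapConst {X : Type} (L : List X) {g : X → α → List β}
    (hg : ∀ x ∈ L, PTime (g x)) : PTime (fun a => L.flatMap (fun x => g x a)) := by
  induction L with
  | nil => exact PTime.const []
  | cons x L ih =>
    exact (hg x List.mem_cons_self).append (ih fun y hy => hg y (List.mem_cons_of_mem _ hy))

theorem PTime.cond {f : α → Bool} {g h : α → β} (hf : PTime f) (hg : PTime g) (hh : PTime h) :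
    PTime (fun a => cond (f a) (g a) (h a)) :=
  (PTime.ite hf hg hh).of_eq fun a => by cases f a <;> rfl

end

end Pool.Agent.PolyTime
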