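import Pool.Agent.Lib.CookLevin.Tableau
import Pool.Agent.Lib.CookLevin.Nat

/-!
# The tableau is computed in polynomial time
-/

namespace Pool.Agent.CookLevin

open Pool.Agent.PolyTime

section clauses
variable {α V : Type} [Enc α] [Enc V] {p q r : α → V}

theorem ptime_lit (hp : PTime p) (b : Bool) : PTime (fun a => ((p a, b) : Lit V)) :=
  hp.pair (PTime.const b)

theorem ptime_imp2 (hp : PTime p) (hq : PTime q) (hr : PTime r) :
    PTime (fun a => imp2 (p a) (q a) (r a)) :=
  (ptime_lit hp false).pair ((ptime_lit hq false).pair (ptime_lit hr true))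

theorem ptime_fact (hp : PTime p) : PTime (fun a => fact (p a)) :=
  (ptime_lit hp true).pair ((ptime_lit hp true).pair (ptime_lit hp true))

theorem ptime_nfact (hp : PTime p) : PTime (fun a => nfact (p a)) :=
  (ptime_lit hp false).pair ((ptime_lit hp false).pair (ptime_lit hp false))

theorem ptime_or2 (hp : PTime p) (hq : PTime q) : PTime (fun a => or2 (p a) (q a)) :=
  (ptime_lit hp true).pair ((ptime_lit hq true).pair (ptime_lit hq true))

end clauses

namespace Tab

variable {Q K A : Type} [DecidableEq K] [DecidableEq A] (B : Tab Q K A)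
variable {α : Type} [Enc α] {f g : α → ℕ}

omit [DecidableEq K] [DecidableEq A] in
theorem ptime_nc (hf : PTime f) (q : Q) : PTime (fun a => B.nc (f a) q) :=
  hf.pair (PTime.const _)

omit [DecidableEq K] [DecidableEq A] in
theorem ptime_ns (hf : PTime f) (k : K) (hg : PTime g) (c : Option A) :
    PTime (fun a => B.ns (f a) k (g a) c) :=
  hf.pair (hg.pair (PTime.const _))

omit [DecidableEq A] in
theorem ptime_cellClauses (q : Q) (k : K) (c : Option A) (hf : PTime f) (hg : PTime g) :
    PTime (fun a => B.cellClauses q k c (f a) (g a)) := by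
  unfold cellClauses
  cases B.actAt q k with
  | keep =>
    exact (ptime_imp2 (B.ptime_nc hf q) (B.ptime_ns hf k hg c)
      (B.ptime_ns hf.succ k hg c)).cons (PTime.const [])
  | pop =>
    exact (ptime_imp2 (B.ptime_nc hf q) (B.ptime_ns hf k hg.succ c)
      (B.ptime_ns hf.succ k hg c)).cons (PTime.const [])
  | push b =>
    exact (ptime_imp2 (B.ptime_nc hf q) (B.ptime_ns hf k hg c)
      (B.ptime_ns hf.succ k hg.succ c)).cons
      ((ptime_imp2 (B.ptime_nc hf q) (B.ptime_nc hf q)
        (B.ptime_ns hf.succ k (PTime.const 0) (some b))).cons (PTime.const []))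

omit [DecidableEq K] [DecidableEq A] in
theorem ptime_ctlClause (q : Q) (c : Option A) (hf : PTime f) :
    PTime (fun a => B.ctlClause q c (f a)) :=
  ptime_imp2 (B.ptime_nc hf q) (B.ptime_ns hf _ (PTime.const 0) c) (B.ptime_nc hf.succ _)

omit [DecidableEq A] in
theorem ptime_stepClauses (hf : PTime f) (hg : PTime g) :
    PTime (fun a => B.stepClauses (f a) (g a)) := by
  unfold stepClauses
  exact (PTime.flatMapConst B.QL fun q _ => PTime.mapConst B.AO fun c _ =>
      B.ptime_ctlClause q c hf).append
    (PTime.flatMapConst B.QL fun q _ => PTime.flatMapConst B.KL fun k _ =>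
      PTime.flatMapConst B.AO fun c _ => B.ptime_cellClauses q k c hf hg)

omit [DecidableEq A] in
theorem ptime_emptyClauses (hf : PTime f) : PTime (fun a => B.emptyClauses (f a)) := by
  unfold emptyClauses
  refine PTime.flatMapConst _ fun k _ => PTime.map (g := fun (_ : α) (i : ℕ) =>
    fact (B.ns 0 k i none)) hf.range ?_
  exact ptime_fact (B.ptime_ns (PTime.const 0) k PTime.snd none)

omit [DecidableEq K] [DecidableEq A] in
theorem ptime_inputClauses {y : α → List Bool} {W Mx : α → ℕ} (hy : PTime y) (hW : PTime W)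
    (hM : PTime Mx) : PTime (fun a => B.inputClauses (y a) (W a) (Mx a)) := by
  unfold inputClauses
  refine PTime.append ?_ (PTime.append ?_ ?_)
  · refine PTime.map (g := fun (_ : α) (p : Bool × ℕ) =>
      cond p.1 (fact (B.ns 0 B.k0 p.2 (some (B.sy true))))
        (fact (B.ns 0 B.k0 p.2 (some (B.sy false))))) hy.zipIdx ?_
    have e1 : PTime (fun p : α × (Bool × ℕ) => p.2.1) := PTime.fst.comp PTime.snd
    have e2 : PTime (fun p : α × (Bool × ℕ) => p.2.2) := PTime.snd.comp PTime.snd
    exact PTime.cond e1 (ptime_fact (B.ptime_ns (PTime.const 0) _ e2 _))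
      (ptime_fact (B.ptime_ns (PTime.const 0) _ e2 _))
  · refine PTime.map (g := fun (a : α) (j : ℕ) =>
      or2 (B.ns 0 B.k0 ((y a).length + j) (some (B.sy false)))
        (B.ns 0 B.k0 ((y a).length + j) (some (B.sy true)))) hW.range ?_
    have e1 : PTime (fun p : α × ℕ => (y p.1).length + p.2) :=
      (hy.length.comp PTime.fst).add PTime.snd
    exact ptime_or2 (B.ptime_ns (PTime.const 0) _ e1 _) (B.ptime_ns (PTime.const 0) _ e1 _)
  · refine PTime.map (g := fun (a : α) (j : ℕ) =>
      fact (B.ns 0 B.k0 ((y a).length + W a + j) none)) hM.range ?_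
    have e1 : PTime (fun p : α × ℕ => (y p.1).length + W p.1 + p.2) :=
      ((hy.length.add hW).comp PTime.fst).add PTime.snd
    exact ptime_fact (B.ptime_ns (PTime.const 0) _ e1 _)

omit [DecidableEq K] in
theorem ptime_finalClauses (hf : PTime f) : PTime (fun a => B.finalClauses (f a)) := by
  unfold finalClauses
  exact PTime.mapConst _ fun c _ => ptime_nfact (B.ptime_ns hf _ (PTime.const 0) c)

theorem ptime_tableau {y : α → List Bool} {W T Mx : α → ℕ} (hy : PTime y) (hW : PTime W)
    (hT : PTime T) (hM : PTime Mx) : PTime (fun a => B.tableau (y a) (W a) (T a) (Mx a)) := by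
  unfold tableau
  refine PTime.append ?_ (PTime.cons (PTime.const _) ((B.ptime_emptyClauses hM).append
    ((B.ptime_inputClauses hy hW hM).append (B.ptime_finalClauses hT))))
  have h3 : PTime (fun p : (α × ℕ) × ℕ => B.stepClauses p.1.2 p.2) :=
    B.ptime_stepClauses (PTime.snd.comp PTime.fst) PTime.snd
  have h2 : PTime (fun p : α × ℕ => (List.range (Mx p.1)).flatMap fun i =>
      B.stepClauses p.2 i) :=
    PTime.flatMap (g := fun (p : α × ℕ) (i : ℕ) => B.stepClauses p.2 i)
      (hM.comp PTime.fst).range h3
  exact PTime.flatMap (g := fun (a : α) (t : ℕ) => (List.range (Mx a)).flatMap fun i =>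
    B.stepClauses t i) hT.range h2

end Tab

end Pool.Agent.CookLevin
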