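import Pool.Agent.Lib.CookLevin.Defs
import Pool.Agent.Lib.CookLevin.TabTime

/-!
# The Cook-Levin theorem for Mathlib's `TM2` machines
-/

namespace Pool.Agent.CookLevin

open Pool.Agent.PolyTime Turing

/-- Codes of the elements of a list. -/
noncomputable def code {X : Type} (L : List X) (x : X) : D :=
  letI : DecidableEq X := Classical.decEq X
  enc (L.idxOf x)

theorem code_inj {X : Type} {L : List X} {x y : X} (hx : x ∈ L) (h : code L x = code L y) :
    x = y := by
  let _ : DecidableEq X := Classical.decEq X
  have h' : L.idxOf x = L.idxOf y := EncInj.inj h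
  exact (List.idxOf_inj hx).1 h'

/-- The known part of the code of a pair. -/
def knownPart (x : List Bool) : List Bool := x.flatMap (fun b => [true, b]) ++ [false]

theorem pairWord_eq (x u : List Bool) : pairWord (x, u) = knownPart x ++ u := by
  simp [pairWord, knownPart]

theorem knownPart_length (x : List Bool) : (knownPart x).length = 2 * x.length + 1 := by
  simp [knownPart, List.length_flatMap, Nat.mul_comm]

theorem ptime_knownPart : PTime knownPart := by
  unfold knownPart
  refine PTime.append (PTime.flatMap (g := fun (_ : List Bool) (b : Bool) => [true, b])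
    PTime.id ?_) (PTime.const _)
  exact (PTime.const true).cons (PTime.snd.cons (PTime.const []))

section machine

variable (tm : FinTM2)

theorem initList_stk (s : List (tm.Γ tm.k₀)) :
    (initList tm s).stk = Function.update (fun _ => []) tm.k₀ s := by
  funext k
  by_cases hk : k = tm.k₀
  · subst hk
    simp [initList]
  · rw [Function.update_of_ne hk]
    simp [initList, hk]

theorem haltList_stk (s : List (tm.Γ tm.k₁)) :
    (haltList tm s).stk = Function.update (fun _ => []) tm.k₁ s := by
  funext k
  by_cases hk : k = tm.k₁
  · subst hk
    simp [haltList]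
  · rw [Function.update_of_ne hk]
    simp [haltList, hk]

end machine

/-- Cook-Levin: every language in NP reduces to 3SAT, by a function computable in polynomial
time. -/
theorem cook_levin {L : Set (List Bool)} (hL : InNP L) :
    ∃ F : List Bool → List (Cl VN), PTime F ∧ ∀ x, x ∈ L ↔ Sat3 (F x) := by
  classical
  obtain ⟨p, V, ⟨c⟩, hV⟩ := hL
  let tm := c.tm
  let _ : Fintype tm.K := tm.kFin
  let _ : Fintype tm.Λ := tm.ΛFin
  let _ : Fintype tm.σ := tm.σFin
  let _ : DecidableEq tm.K := tm.kDecidableEq
  obtain ⟨QL, hQ1, hQ2⟩ := exists_closed tm.m tm.k₀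
  let M := microEM tm.m tm.k₀
  let sy : Bool → (Σ k, tm.Γ k) := fun b => ⟨tm.k₀, c.inputAlphabet.invFun b⟩
  let acc : Σ k, tm.Γ k := ⟨tm.k₁, c.outputAlphabet.invFun true⟩
  let AL : List (Σ k, tm.Γ k) := sy false :: sy true :: acc ::
    QL.filterMap fun q => match M.act q with
      | Act.push a => some a
      | _ => none
  let B : Tab (Option (TM2.Stmt tm.Γ tm.Λ tm.σ) × tm.σ) tm.K (Σ k, tm.Γ k) :=
    { M := M
      q0 := (some (tm.m tm.main), tm.initialState)
      k0 := tm.k₀
      k1 := tm.k₁
      sy := sy
      acc := acc
      QL := QL
      KL := Finset.univ.toList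
      AL := AL
      cq := code QL
      ck := code Finset.univ.toList
      ca := code (none :: AL.map some)
      h0 := hQ1 _ _
      hnext := hQ2
      hpush := by
        intro q hq a ha
        refine List.mem_cons_of_mem _ (List.mem_cons_of_mem _ (List.mem_cons_of_mem _ ?_))
        exact List.mem_filterMap.2 ⟨q, hq, by rw [ha]⟩
      hsy := by
        intro b
        cases b
        · exact List.mem_cons_self
        · exact List.mem_cons_of_mem _ List.mem_cons_self
      hacc := List.mem_cons_of_mem _ (List.mem_cons_of_mem _ List.mem_cons_self)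
      hK := fun k => by simp
      hcq := fun q hq q' _ h => code_inj hq h
      hck := fun k k' h => code_inj (by simp) h
      hca := fun a ha b _ h => code_inj ha h }
  -- time bound
  let Dp : ℕ := Finset.univ.sup fun l => depth (tm.m l)
  have hDp : ∀ l, depth (tm.m l) ≤ Dp := fun l => Finset.le_sup (f := fun l => depth (tm.m l))
    (Finset.mem_univ l)
  let q : Polynomial ℕ := Polynomial.C 2 * Polynomial.X + 1 + p
  have hq : ∀ n, q.eval n = 2 * n + 1 + p.eval n := fun n => by simp [q]
  let T : List Bool → ℕ := fun x => c.time.eval (q.eval x.length) * Dp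
  have hlen : PTime (fun x : List Bool => x.length) := PTime.length PTime.id
  have hT : PTime T := ((hlen.evalPoly q).evalPoly c.time).mul (PTime.const Dp)
  refine ⟨fun x => B.tableau (knownPart x) (p.eval x.length) (T x) (T x + 1),
    B.ptime_tableau ptime_knownPart (hlen.evalPoly p) hT hT.succ, fun x => ?_⟩
  rw [hV, B.sat_iff (Nat.lt_succ_self _)]
  refine exists_congr fun u => and_congr_right fun hu => ?_
  -- the run on the pair (x, u)
  have hrun := c.outputsFun (x, u)
  have hsteps := hrun.steps_le_m
  have hev := hrun.evals_in_steps
  have hl : (pairWord (x, u)).length = q.eval x.length := by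
    rw [pairWord_eq, List.length_append, knownPart_length, hu, hq]
  have hfin := micro_final tm.m tm.k₀ Dp hDp hrun.steps
    (initList tm ((pairWord (x, u)).map c.inputAlphabet.invFun)) tm.initialState
    (haltList tm ([V (x, u)].map c.outputAlphabet.invFun)).stk hev (T x) (by
      refine Nat.mul_le_mul_right _ ?_
      rw [← hl]
      exact hsteps)
  have hstart : B.start (knownPart x ++ u) =
      toConf tm.m (initList tm ((pairWord (x, u)).map c.inputAlphabet.invFun)) := by
    have e1 : (toConf tm.m (initList tm ((pairWord (x, u)).map c.inputAlphabet.invFun))).1 =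
        (some (tm.m tm.main), tm.initialState) := rfl
    have e2 : (toConf tm.m (initList tm ((pairWord (x, u)).map c.inputAlphabet.invFun))).2 =
        Function.update (fun _ => []) tm.k₀ ((knownPart x ++ u).map sy) := by
      change tagStk (initList tm _).stk = _
      rw [initList_stk, tagStk_update, List.map_map, pairWord_eq]
      rfl
    exact Prod.ext e1.symm e2.symm
  change _ ↔ ((B.conf (knownPart x ++ u) (T x)).2 tm.k₁).head? = some acc
  have hconf : B.conf (knownPart x ++ u) (T x) = ((none, tm.initialState),
      tagStk (haltList tm ([V (x, u)].map c.outputAlphabet.invFun)).stk) := by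
    unfold Tab.conf
    rw [hstart]
    exact hfin
  rw [hconf, haltList_stk, tagStk_update]
  simp only [Function.update_self, List.map_cons, List.map_nil, List.head?_cons, acc,
    Option.some.injEq, Sigma.mk.injEq, heq_eq_eq, true_and]
  exact (c.outputAlphabet.symm.injective.eq_iff).symm

end Pool.Agent.CookLevin
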