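import Mathlib

/-!
# Elementary stack machines, and the simulation of Mathlib's `TM2` machines by them

An elementary machine performs, in each step, at most one operation on one stack.
-/

namespace Pool.Agent.CookLevin

open Turing StateTransition

/-- An operation on a stack. -/
inductive Act (A : Type)
  | keep : Act A
  | pop : Act A
  | push (a : A) : Act A

/-- Effect of an operation. -/
def Act.app {A : Type} : Act A → List A → List A
  | Act.keep, l => l
  | Act.pop, l => l.tail
  | Act.push a, l => a :: l

/-- Elementary machines with control states `Q`, stacks `K` and stack symbols `A`. -/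
structure EM (Q K A : Type) where
  /-- the stack used in a state -/
  stk : Q → K
  /-- the operation performed on it -/
  act : Q → Act A
  /-- the next state, depending on the top of the stack before the operation -/
  next : Q → Option A → Q

/-- One step. -/
def EM.step {Q K A : Type} [DecidableEq K] (M : EM Q K A) (c : Q × (K → List A)) :
    Q × (K → List A) :=
  (M.next c.1 (c.2 (M.stk c.1)).head?,
    Function.update c.2 (M.stk c.1) ((M.act c.1).app (c.2 (M.stk c.1))))

section sim

variable {K : Type} [DecidableEq K] {Γ : K → Type} {Λ σ : Type}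

/-- Read a symbol as a symbol of the stack `k`. -/
def readAt (k : K) : Option (Σ k, Γ k) → Option (Γ k)
  | none => none
  | some ⟨k', x⟩ => if h : k' = k then some (h ▸ x) else none

theorem readAt_head (k : K) (l : List (Γ k)) :
    readAt k ((l.map (Sigma.mk k)).head?) = l.head? := by
  cases l with
  | nil => rfl
  | cons x l => simp [readAt]

/-- The elementary machine of a `TM2` program. -/
def microEM (M : Λ → TM2.Stmt Γ Λ σ) (k₀ : K) : EM (Option (TM2.Stmt Γ Λ σ) × σ) K (Σ k, Γ k) where
  stk q := match q.1 with
    | some (TM2.Stmt.push k _ _) => k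
    | some (TM2.Stmt.peek k _ _) => k
    | some (TM2.Stmt.pop k _ _) => k
    | _ => k₀
  act q := match q.1 with
    | some (TM2.Stmt.push k f _) => Act.push ⟨k, f q.2⟩
    | some (TM2.Stmt.pop _ _ _) => Act.pop
    | _ => Act.keep
  next q a := match q.1 with
    | some (TM2.Stmt.push _ _ s) => (some s, q.2)
    | some (TM2.Stmt.peek k f s) => (some s, f q.2 (readAt k a))
    | some (TM2.Stmt.pop k f s) => (some s, f q.2 (readAt k a))
    | some (TM2.Stmt.load f s) => (some s, f q.2)
    | some (TM2.Stmt.branch f s s') => (some (cond (f q.2) s s'), q.2)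
    | some (TM2.Stmt.goto f) => (some (M (f q.2)), q.2)
    | some TM2.Stmt.halt => (none, q.2)
    | none => (none, q.2)

/-- Stacks with tagged symbols. -/
def tagStk (S : ∀ k, List (Γ k)) : K → List (Σ k, Γ k) := fun k => (S k).map (Sigma.mk k)

theorem tagStk_update (S : ∀ k, List (Γ k)) (k : K) (l : List (Γ k)) :
    tagStk (Function.update S k l) = Function.update (tagStk S) k (l.map (Sigma.mk k)) := by
  funext k'
  by_cases h : k' = k
  · subst h
    simp [tagStk]
  · simp [tagStk, Function.update_of_ne h]

/-- The configuration of the elementary machine. -/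
def toConf (M : Λ → TM2.Stmt Γ Λ σ) (c : TM2.Cfg Γ Λ σ) :
    (Option (TM2.Stmt Γ Λ σ) × σ) × (K → List (Σ k, Γ k)) :=
  ((c.l.map M, c.var), tagStk c.stk)

/-- A bound for the number of elementary operations in a statement. -/
def depth : TM2.Stmt Γ Λ σ → ℕ
  | TM2.Stmt.push _ _ s => depth s + 1
  | TM2.Stmt.peek _ _ s => depth s + 1
  | TM2.Stmt.pop _ _ s => depth s + 1
  | TM2.Stmt.load _ s => depth s + 1
  | TM2.Stmt.branch _ s s' => max (depth s) (depth s') + 1
  | TM2.Stmt.goto _ => 1
  | TM2.Stmt.halt => 1

theorem micro_stepAux (M : Λ → TM2.Stmt Γ Λ σ) (k₀ : K) (s : TM2.Stmt Γ Λ σ) :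
    ∀ (v : σ) (S : ∀ k, List (Γ k)), ∃ d ≤ depth s,
      (microEM M k₀).step^[d] ((some s, v), tagStk S) = toConf M (TM2.stepAux s v S) := by
  induction s with
  | push k f s ih =>
    intro v S
    obtain ⟨d, hd, h⟩ := ih v (Function.update S k (f v :: S k))
    refine ⟨d + 1, by simp only [depth]; omega, ?_⟩
    rw [Function.iterate_succ_apply, TM2.stepAux, ← h, tagStk_update]
    rfl
  | peek k f s ih =>
    intro v S
    obtain ⟨d, hd, h⟩ := ih (f v (S k).head?) S
    refine ⟨d + 1, by simp only [depth]; omega, ?_⟩
    rw [Function.iterate_succ_apply, TM2.stepAux, ← h]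
    congr 1
    have e : readAt k (tagStk S k).head? = (S k).head? := readAt_head k (S k)
    simp only [EM.step, microEM, Act.app, Function.update_eq_self, e]
  | pop k f s ih =>
    intro v S
    obtain ⟨d, hd, h⟩ := ih (f v (S k).head?) (Function.update S k (S k).tail)
    refine ⟨d + 1, by simp only [depth]; omega, ?_⟩
    rw [Function.iterate_succ_apply, TM2.stepAux, ← h, tagStk_update]
    congr 1
    simp only [EM.step, microEM, Act.app, tagStk, readAt_head, List.map_tail]
  | load f s ih =>
    intro v S
    obtain ⟨d, hd, h⟩ := ih (f v) S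
    refine ⟨d + 1, by simp only [depth]; omega, ?_⟩
    rw [Function.iterate_succ_apply, TM2.stepAux, ← h]
    congr 1
    simp only [EM.step, microEM, Act.app, Function.update_eq_self]
  | branch f s s' ih ih' =>
    intro v S
    cases hf : f v with
    | true =>
      obtain ⟨d, hd, h⟩ := ih v S
      refine ⟨d + 1, by simp only [depth]; omega, ?_⟩
      rw [Function.iterate_succ_apply, TM2.stepAux, hf, cond_true, ← h]
      congr 1
      simp only [EM.step, microEM, Act.app, Function.update_eq_self, hf, cond_true]
    | false =>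
      obtain ⟨d, hd, h⟩ := ih' v S
      refine ⟨d + 1, by simp only [depth]; omega, ?_⟩
      rw [Function.iterate_succ_apply, TM2.stepAux, hf, cond_false, ← h]
      congr 1
      simp only [EM.step, microEM, Act.app, Function.update_eq_self, hf, cond_false]
  | goto f =>
    intro v S
    refine ⟨1, le_refl _, ?_⟩
    simp only [Function.iterate_one, EM.step, microEM, Act.app, Function.update_eq_self, toConf,
      TM2.stepAux, Option.map_some]
  | halt =>
    intro v S
    refine ⟨1, le_refl _, ?_⟩
    simp only [Function.iterate_one, EM.step, microEM, Act.app, Function.update_eq_self, toConf,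
      TM2.stepAux, Option.map_none]

theorem micro_halted (M : Λ → TM2.Stmt Γ Λ σ) (k₀ : K) (v : σ) (S : K → List (Σ k, Γ k)) (n : ℕ) :
    (microEM M k₀).step^[n] ((none, v), S) = ((none, v), S) := by
  induction n with
  | zero => rfl
  | succ n ih =>
    rw [Function.iterate_succ_apply]
    have : (microEM M k₀).step ((none, v), S) = ((none, v), S) := by
      simp only [EM.step, microEM, Act.app, Function.update_eq_self]
    rw [this, ih]

/-- Simulation of a run. -/
theorem micro_run (M : Λ → TM2.Stmt Γ Λ σ) (k₀ : K) (D : ℕ) (hD : ∀ l, depth (M l) ≤ D) (n : ℕ) :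
    ∀ (c c' : TM2.Cfg Γ Λ σ), (flip bind (TM2.step M))^[n] (some c) = some c' →
      ∃ N ≤ n * D, (microEM M k₀).step^[N] (toConf M c) = toConf M c' := by
  induction n with
  | zero =>
    intro c c' h
    rw [Function.iterate_zero, id, Option.some.injEq] at h
    exact ⟨0, Nat.zero_le _, by rw [h]; rfl⟩
  | succ n ih =>
    intro c c' h
    rw [Function.iterate_succ_apply] at h
    obtain ⟨l, v, S⟩ := c
    cases l with
    | none =>
      exfalso
      have : flip bind (TM2.step M) (some (⟨none, v, S⟩ : TM2.Cfg Γ Λ σ)) = none := rfl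
      rw [this] at h
      have hn : ∀ m : ℕ, (flip bind (TM2.step M))^[m] (none : Option (TM2.Cfg Γ Λ σ)) = none := by
        intro m
        induction m with
        | zero => rfl
        | succ m ihm => rw [Function.iterate_succ_apply]; exact ihm
      rw [hn] at h
      simp at h
    | some l =>
      have : flip bind (TM2.step M) (some (⟨some l, v, S⟩ : TM2.Cfg Γ Λ σ)) =
        some (TM2.stepAux (M l) v S) := rfl
      rw [this] at h
      obtain ⟨N, hN, h1⟩ := ih _ _ h
      obtain ⟨d, hd, h2⟩ := micro_stepAux M k₀ (M l) v S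
      refine ⟨N + d, ?_, ?_⟩
      · have := hD l
        rw [Nat.add_one_mul]
        omega
      · rw [Function.iterate_add_apply, ← h1, ← h2]
        rfl

/-- After sufficiently many elementary steps the machine is in the final configuration. -/
theorem micro_final (M : Λ → TM2.Stmt Γ Λ σ) (k₀ : K) (D : ℕ) (hD : ∀ l, depth (M l) ≤ D)
    (n : ℕ) (c : TM2.Cfg Γ Λ σ) (v : σ) (S : ∀ k, List (Γ k))
    (h : (flip bind (TM2.step M))^[n] (some c) = some ⟨none, v, S⟩) (N : ℕ) (hN : n * D ≤ N) :
    (microEM M k₀).step^[N] (toConf M c) = ((none, v), tagStk S) := by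
  obtain ⟨N', hN', h1⟩ := micro_run M k₀ D hD n _ _ h
  have : N = (N - N') + N' := by omega
  rw [this, Function.iterate_add_apply, h1]
  exact micro_halted M k₀ v (tagStk S) _

/-- The subterms of a statement. -/
def subs : TM2.Stmt Γ Λ σ → List (TM2.Stmt Γ Λ σ)
  | TM2.Stmt.push k f s => TM2.Stmt.push k f s :: subs s
  | TM2.Stmt.peek k f s => TM2.Stmt.peek k f s :: subs s
  | TM2.Stmt.pop k f s => TM2.Stmt.pop k f s :: subs s
  | TM2.Stmt.load f s => TM2.Stmt.load f s :: subs s
  | TM2.Stmt.branch f s s' => TM2.Stmt.branch f s s' :: (subs s ++ subs s')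
  | TM2.Stmt.goto f => [TM2.Stmt.goto f]
  | TM2.Stmt.halt => [TM2.Stmt.halt]

omit [DecidableEq K] in
theorem self_mem_subs (s : TM2.Stmt Γ Λ σ) : s ∈ subs s := by
  cases s <;> simp [subs]

omit [DecidableEq K] in
theorem subs_trans {s s' : TM2.Stmt Γ Λ σ} (h : s' ∈ subs s) : subs s' ⊆ subs s := by
  induction s with
  | push k f s ih =>
    simp only [subs, List.mem_cons] at h
    rcases h with rfl | h
    · exact fun _ h => h
    · exact fun _ h' => List.mem_cons_of_mem _ (ih h h')
  | peek k f s ih =>
    simp only [subs, List.mem_cons] at h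
    rcases h with rfl | h
    · exact fun _ h => h
    · exact fun _ h' => List.mem_cons_of_mem _ (ih h h')
  | pop k f s ih =>
    simp only [subs, List.mem_cons] at h
    rcases h with rfl | h
    · exact fun _ h => h
    · exact fun _ h' => List.mem_cons_of_mem _ (ih h h')
  | load f s ih =>
    simp only [subs, List.mem_cons] at h
    rcases h with rfl | h
    · exact fun _ h => h
    · exact fun _ h' => List.mem_cons_of_mem _ (ih h h')
  | branch f s₁ s₂ ih₁ ih₂ =>
    simp only [subs, List.mem_cons, List.mem_append] at h
    rcases h with rfl | h | h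
    · exact fun _ h => h
    · exact fun _ h' => List.mem_cons_of_mem _ (List.mem_append_left _ (ih₁ h h'))
    · exact fun _ h' => List.mem_cons_of_mem _ (List.mem_append_right _ (ih₂ h h'))
  | goto f =>
    simp only [subs, List.mem_singleton] at h
    subst h
    exact fun _ h => h
  | halt =>
    simp only [subs, List.mem_singleton] at h
    subst h
    exact fun _ h => h

/-- A finite set of states closed under steps. -/
theorem exists_closed [Fintype Λ] [Fintype σ] (M : Λ → TM2.Stmt Γ Λ σ) (k₀ : K) :
    ∃ QL : List (Option (TM2.Stmt Γ Λ σ) × σ), (∀ l v, (some (M l), v) ∈ QL) ∧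
      ∀ q ∈ QL, ∀ a, (microEM M k₀).next q a ∈ QL := by
  classical
  let SL : List (TM2.Stmt Γ Λ σ) := (Finset.univ.toList : List Λ).flatMap fun l => subs (M l)
  have hSL : ∀ s ∈ SL, subs s ⊆ SL := by
    intro s hs s' hs'
    obtain ⟨l, hl, h⟩ := List.mem_flatMap.1 hs
    exact List.mem_flatMap.2 ⟨l, hl, subs_trans h hs'⟩
  have hM : ∀ l, M l ∈ SL := fun l =>
    List.mem_flatMap.2 ⟨l, by simp, self_mem_subs _⟩
  let QL : List (Option (TM2.Stmt Γ Λ σ) × σ) :=
    (none :: SL.map some) ×ˢ (Finset.univ.toList : List σ)
  have hsome : ∀ s v, (some s, v) ∈ QL ↔ s ∈ SL := by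
    intro s v
    simp [QL]
  have hnone : ∀ v, (none, v) ∈ QL := by
    intro v
    simp [QL]
  refine ⟨QL, fun l v => (hsome _ _).2 (hM l), ?_⟩
  rintro ⟨q, v⟩ hq a
  cases q with
  | none => exact hnone v
  | some s =>
    rw [hsome] at hq
    have hs := hSL s hq
    cases s with
    | push k f s => exact (hsome _ _).2 (hs (by simp [subs, self_mem_subs]))
    | peek k f s => exact (hsome _ _).2 (hs (by simp [subs, self_mem_subs]))
    | pop k f s => exact (hsome _ _).2 (hs (by simp [subs, self_mem_subs]))
    | load f s => exact (hsome _ _).2 (hs (by simp [subs, self_mem_subs]))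
    | branch f s s' =>
      refine (hsome _ _).2 (hs ?_)
      cases f v <;> simp [subs, self_mem_subs]
    | goto f => exact (hsome _ _).2 (hM _)
    | halt => exact hnone v

end sim

end Pool.Agent.CookLevin
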