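import Pool.Agent.Lib.CookLevin.TabTime

/-!
# From 3SAT to monotone NAE-3SAT
-/

namespace Pool.Agent.CookLevin

open Pool.Agent.PolyTime

/-- The list of triples `I` has a 2-colouring in which no triple is monochromatic (monotone
NAE-3SAT; entries of a triple may coincide). -/
def NAESat {α : Type} (I : List (α × (α × α))) : Prop :=
  ∃ f : α → Prop, ∀ T ∈ I, ¬ ((f T.1 ↔ f T.2.1) ∧ (f T.2.1 ↔ f T.2.2))

section
variable {V : Type}

/-- The triples for a clause. The variables of the new instance are lists of literals. -/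
def naeOf (c : Cl V) : List (List (Lit V) × (List (Lit V) × List (Lit V))) :=
  [([(c.1.1, true)], ([(c.1.1, true)], [(c.1.1, false)])),
   ([(c.2.1.1, true)], ([(c.2.1.1, true)], [(c.2.1.1, false)])),
   ([(c.2.2.1, true)], ([(c.2.2.1, true)], [(c.2.2.1, false)])),
   ([c.1], ([c.2.1], [c.1, c.2.1])),
   ([c.1, c.2.1], ([c.1, c.2.1], [c.1, c.2.1, c.2.1])),
   ([c.1, c.2.1, c.2.1], ([c.2.2], []))]

/-- The NAE-3SAT instance of a 3SAT instance. -/
def nae3 (F : List (Cl V)) : List (List (Lit V) × (List (Lit V) × List (Lit V))) :=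
  F.flatMap naeOf

theorem nae_aux1 {a b c : Prop} (h : a ∨ b ∨ c) :
    ¬ ((a ↔ b) ∧ (b ↔ ¬ (a ∨ b))) ∧ ¬ ((¬ (a ∨ b) ↔ ¬ (a ∨ b)) ∧ (¬ (a ∨ b) ↔ (a ∨ b))) ∧
      ¬ (((a ∨ b) ↔ c) ∧ (c ↔ False)) := by
  by_cases ha : a <;> by_cases hb : b <;> by_cases hc : c <;> simp_all

theorem nae_aux2 {p0 p1 p2 p3 u u' : Prop} (h4 : ¬ ((p1 ↔ p2) ∧ (p2 ↔ u)))
    (h5 : ¬ ((u ↔ u) ∧ (u ↔ u'))) (h6 : ¬ ((u' ↔ p3) ∧ (p3 ↔ p0))) :
    ¬ (p1 ↔ p0) ∨ ¬ (p2 ↔ p0) ∨ ¬ (p3 ↔ p0) := by
  by_cases p0 <;> by_cases p1 <;> by_cases p2 <;> by_cases p3 <;> by_cases u <;>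
    by_cases u' <;> simp_all

theorem nae_aux3 {a b c : Prop} (h : ¬ ((a ↔ a) ∧ (a ↔ b))) : (¬ ¬ (a ↔ c)) ↔ ¬ (b ↔ c) := by
  by_cases a <;> by_cases b <;> by_cases c <;> simp_all

theorem nae3_iff (F : List (Cl V)) : Sat3 F ↔ NAESat (nae3 F) := by
  constructor
  · rintro ⟨τ, hτ⟩
    let f : List (Lit V) → Prop := fun l => match l with
      | [] => False
      | [l] => Lit.holds τ l
      | [l₁, l₂] => ¬ (Lit.holds τ l₁ ∨ Lit.holds τ l₂)
      | l₁ :: l₂ :: _ :: _ => Lit.holds τ l₁ ∨ Lit.holds τ l₂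
    refine ⟨f, fun T hT => ?_⟩
    obtain ⟨c, hc, hT⟩ := List.mem_flatMap.1 hT
    have h := hτ c hc
    have hv : ∀ v : V, ¬ ((f [(v, true)] ↔ f [(v, true)]) ∧ (f [(v, true)] ↔ f [(v, false)])) := by
      intro v
      simp only [f, Lit.holds, Bool.false_eq_true, iff_false, iff_true]
      tauto
    simp only [naeOf, List.mem_cons, List.not_mem_nil, or_false] at hT
    obtain ⟨g1, g2, g3⟩ := nae_aux1 h
    rcases hT with rfl | rfl | rfl | rfl | rfl | rfl
    · exact hv _
    · exact hv _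
    · exact hv _
    · exact g1
    · exact g2
    · exact g3
  · rintro ⟨f, hf⟩
    refine ⟨fun v => ¬ (f [(v, true)] ↔ f []), fun c hc => ?_⟩
    have hf' : ∀ T ∈ naeOf c, ¬ ((f T.1 ↔ f T.2.1) ∧ (f T.2.1 ↔ f T.2.2)) := fun T hT =>
      hf T (List.mem_flatMap.2 ⟨c, hc, hT⟩)
    have h1 := hf' _ List.mem_cons_self
    have h2 := hf' _ (List.mem_cons_of_mem _ List.mem_cons_self)
    have h3 := hf' _ (List.mem_cons_of_mem _ (List.mem_cons_of_mem _ List.mem_cons_self))
    have h4 := hf' _ (List.mem_cons_of_mem _ (List.mem_cons_of_mem _ (List.mem_cons_of_mem _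
      List.mem_cons_self)))
    have h5 := hf' _ (List.mem_cons_of_mem _ (List.mem_cons_of_mem _ (List.mem_cons_of_mem _
      (List.mem_cons_of_mem _ List.mem_cons_self))))
    have h6 := hf' _ (List.mem_cons_of_mem _ (List.mem_cons_of_mem _ (List.mem_cons_of_mem _
      (List.mem_cons_of_mem _ (List.mem_cons_of_mem _ List.mem_cons_self)))))
    have key : ∀ l : Lit V, ¬ ((f [(l.1, true)] ↔ f [(l.1, true)]) ∧
        (f [(l.1, true)] ↔ f [(l.1, false)])) →
        (Lit.holds (fun v => ¬ (f [(v, true)] ↔ f [])) l ↔ ¬ (f [l] ↔ f [])) := by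
      rintro ⟨v, b⟩ h
      cases b
      · simp only [Lit.holds, Bool.false_eq_true, iff_false]
        exact nae_aux3 h
      · simp only [Lit.holds, iff_true]
    unfold Cl.holds
    rw [key _ h1, key _ h2, key _ h3]
    exact nae_aux2 h4 h5 h6

end

theorem ptime_nae3 {V : Type} [Enc V] : PTime (nae3 : List (Cl V) → _) := by
  unfold nae3
  refine PTime.flatMap (g := fun (_ : List (Cl V)) (c : Cl V) => naeOf c) PTime.id ?_
  have c1 : PTime (fun p : List (Cl V) × Cl V => p.2.1) := PTime.fst.comp PTime.snd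
  have c2 : PTime (fun p : List (Cl V) × Cl V => p.2.2.1) :=
    PTime.fst.comp (PTime.snd.comp PTime.snd)
  have c3 : PTime (fun p : List (Cl V) × Cl V => p.2.2.2) :=
    PTime.snd.comp (PTime.snd.comp PTime.snd)
  have single : ∀ {g : List (Cl V) × Cl V → V}, PTime g → ∀ b : Bool,
      PTime (fun p => [((g p, b) : Lit V)]) := fun hg b =>
    (hg.pair (PTime.const b)).cons (PTime.const [])
  have v1 : PTime (fun p : List (Cl V) × Cl V => p.2.1.1) := PTime.fst.comp c1
  have v2 : PTime (fun p : List (Cl V) × Cl V => p.2.2.1.1) := PTime.fst.comp c2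
  have v3 : PTime (fun p : List (Cl V) × Cl V => p.2.2.2.1) := PTime.fst.comp c3
  have e : PTime (fun _ : List (Cl V) × Cl V => ([] : List (Lit V))) := PTime.const []
  have l1 := c1.cons e
  have l2 := c2.cons e
  have l3 := c3.cons e
  have l12 := c1.cons l2
  have l122 := c1.cons (c2.cons l2)
  unfold naeOf
  exact ((single v1 true).pair ((single v1 true).pair (single v1 false))).cons
    (((single v2 true).pair ((single v2 true).pair (single v2 false))).cons
    (((single v3 true).pair ((single v3 true).pair (single v3 false))).cons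
    ((l1.pair (l2.pair l12)).cons ((l12.pair (l12.pair l122)).cons
    ((l122.pair (l3.pair e)).cons (PTime.const []))))))

end Pool.Agent.CookLevin
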