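import Pool.Agent.Lib.CookLevin.Micro
import Pool.Agent.Lib.PolyTime.Lists

/-!
# The tableau of an elementary machine as an instance of 3SAT
-/

namespace Pool.Agent.CookLevin

open Pool.Agent.PolyTime

/-! ### 3SAT -/

/-- Literals over the variables `V`: a variable and a sign. -/
abbrev Lit (V : Type) := V × Bool

/-- Clauses with three literals. -/
abbrev Cl (V : Type) := Lit V × (Lit V × Lit V)

/-- Truth of a literal. -/
def Lit.holds {V : Type} (τ : V → Prop) (l : Lit V) : Prop := τ l.1 ↔ l.2 = true

/-- Truth of a clause. -/
def Cl.holds {V : Type} (τ : V → Prop) (c : Cl V) : Prop :=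
  Lit.holds τ c.1 ∨ Lit.holds τ c.2.1 ∨ Lit.holds τ c.2.2

/-- Satisfiability. -/
def Sat3 {V : Type} (F : List (Cl V)) : Prop := ∃ τ : V → Prop, ∀ c ∈ F, Cl.holds τ c

section clauses
variable {V : Type}

/-- `p ∧ q → r` -/
def imp2 (p q r : V) : Cl V := ((p, false), ((q, false), (r, true)))
/-- `p` -/
def fact (p : V) : Cl V := ((p, true), ((p, true), (p, true)))
/-- `¬ p` -/
def nfact (p : V) : Cl V := ((p, false), ((p, false), (p, false)))
/-- `p ∨ q` -/
def or2 (p q : V) : Cl V := ((p, true), ((q, true), (q, true)))

theorem imp2_holds {τ : V → Prop} {p q r : V} : Cl.holds τ (imp2 p q r) ↔ (τ p → τ q → τ r) := by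
  simp only [Cl.holds, imp2, Lit.holds, Bool.false_eq_true, iff_false, iff_true]
  tauto
theorem fact_holds {τ : V → Prop} {p : V} : Cl.holds τ (fact p) ↔ τ p := by
  simp [Cl.holds, fact, Lit.holds]
theorem nfact_holds {τ : V → Prop} {p : V} : Cl.holds τ (nfact p) ↔ ¬ τ p := by
  simp [Cl.holds, nfact, Lit.holds]
theorem or2_holds {τ : V → Prop} {p q : V} : Cl.holds τ (or2 p q) ↔ τ p ∨ τ q := by
  simp [Cl.holds, or2, Lit.holds]

end clauses

/-- Names of the variables of the tableau: time, position, and a code. -/
abbrev VN := ℕ × (ℕ × D)

/-- Everything that is fixed when the input varies. -/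
structure Tab (Q K A : Type) where
  M : EM Q K A
  q0 : Q
  k0 : K
  k1 : K
  sy : Bool → A
  acc : A
  QL : List Q
  KL : List K
  AL : List A
  cq : Q → D
  ck : K → D
  ca : Option A → D
  h0 : q0 ∈ QL
  hnext : ∀ q ∈ QL, ∀ a, M.next q a ∈ QL
  hpush : ∀ q ∈ QL, ∀ a, M.act q = Act.push a → a ∈ AL
  hsy : ∀ b, sy b ∈ AL
  hacc : acc ∈ AL
  hK : ∀ k, k ∈ KL
  hcq : ∀ q ∈ QL, ∀ q' ∈ QL, cq q = cq q' → q = q'
  hck : ∀ k k', ck k = ck k' → k = k'
  hca : ∀ a ∈ none :: AL.map some, ∀ b ∈ none :: AL.map some, ca a = ca b → a = b

namespace Tab

variable {Q K A : Type} [DecidableEq K] [DecidableEq A] (B : Tab Q K A)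

/-- the possible contents of cells -/
def AO : List (Option A) := none :: B.AL.map some

/-- name of `the state at time t is q` -/
def nc (t : ℕ) (q : Q) : VN := (t, (0, D.cons D.nil (B.cq q)))

/-- name of `the cell at depth i of stack k at time t has content a` -/
def ns (t : ℕ) (k : K) (i : ℕ) (a : Option A) : VN :=
  (t, (i, D.cons (D.cons D.nil D.nil) (D.cons (B.ck k) (B.ca a))))

/-- the operation performed on stack `k` in state `q` -/
def actAt (q : Q) (k : K) : Act A := if B.M.stk q = k then B.M.act q else Act.keep

/-- transition of a cell -/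
def cellClauses (q : Q) (k : K) (a : Option A) (t i : ℕ) : List (Cl VN) :=
  match B.actAt q k with
  | Act.keep => [imp2 (B.nc t q) (B.ns t k i a) (B.ns (t + 1) k i a)]
  | Act.pop => [imp2 (B.nc t q) (B.ns t k (i + 1) a) (B.ns (t + 1) k i a)]
  | Act.push b => [imp2 (B.nc t q) (B.ns t k i a) (B.ns (t + 1) k (i + 1) a),
      imp2 (B.nc t q) (B.nc t q) (B.ns (t + 1) k 0 (some b))]

/-- transition of the state -/
def ctlClause (q : Q) (a : Option A) (t : ℕ) : Cl VN :=
  imp2 (B.nc t q) (B.ns t (B.M.stk q) 0 a) (B.nc (t + 1) (B.M.next q a))

/-- all transitions, at time `t` and depth `i` -/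
def stepClauses (t i : ℕ) : List (Cl VN) :=
  (B.QL.flatMap fun q => B.AO.map fun a => B.ctlClause q a t) ++
  (B.QL.flatMap fun q => B.KL.flatMap fun k => B.AO.flatMap fun a => B.cellClauses q k a t i)

/-- initial contents of the stacks other than `k0` -/
def emptyClauses (Mx : ℕ) : List (Cl VN) :=
  (B.KL.filter (fun k => decide (k ≠ B.k0))).flatMap fun k =>
    (List.range Mx).map fun i => fact (B.ns 0 k i none)

/-- initial contents of stack `k0` -/
def inputClauses (y : List Bool) (W Mx : ℕ) : List (Cl VN) :=
  (y.zipIdx.map fun p => cond p.1 (fact (B.ns 0 B.k0 p.2 (some (B.sy true))))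
    (fact (B.ns 0 B.k0 p.2 (some (B.sy false))))) ++
  (((List.range W).map fun j => or2 (B.ns 0 B.k0 (y.length + j) (some (B.sy false)))
      (B.ns 0 B.k0 (y.length + j) (some (B.sy true)))) ++
  ((List.range Mx).map fun j => fact (B.ns 0 B.k0 (y.length + W + j) none)))

/-- acceptance -/
def finalClauses (T : ℕ) : List (Cl VN) :=
  (B.AO.filter (fun a => decide (a ≠ some B.acc))).map fun a => nfact (B.ns T B.k1 0 a)

/-- The 3SAT instance: known part `y` of the input, `W` unknown bits, time `T`, `Mx` cells. -/
def tableau (y : List Bool) (W T Mx : ℕ) : List (Cl VN) :=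
  ((List.range T).flatMap fun t => (List.range Mx).flatMap fun i => B.stepClauses t i) ++
  (fact (B.nc 0 B.q0) :: (B.emptyClauses Mx ++ (B.inputClauses y W Mx ++ B.finalClauses T)))

/-- initial configuration on input `l` -/
def start (l : List Bool) : Q × (K → List A) :=
  (B.q0, Function.update (fun _ => []) B.k0 (l.map B.sy))

/-- configuration at time `t` -/
def conf (l : List Bool) (t : ℕ) : Q × (K → List A) := B.M.step^[t] (B.start l)

/-- acceptance at time `T` -/
def accepts (l : List Bool) (T : ℕ) : Prop := ((B.conf l T).2 B.k1).head? = some B.acc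

omit [DecidableEq A] in
theorem conf_succ (l : List Bool) (t : ℕ) : B.conf l (t + 1) = B.M.step (B.conf l t) := by
  unfold conf
  rw [Function.iterate_succ_apply']

omit [DecidableEq A] in
theorem conf_mem (l : List Bool) (t : ℕ) :
    (B.conf l t).1 ∈ B.QL ∧ ∀ k, ∀ a ∈ (B.conf l t).2 k, a ∈ B.AL := by
  induction t with
  | zero =>
    refine ⟨B.h0, fun k a ha => ?_⟩
    change a ∈ Function.update (fun _ => []) B.k0 (l.map B.sy) k at ha
    by_cases hk : k = B.k0
    · subst hk
      rw [Function.update_self] at ha
      obtain ⟨b, _, rfl⟩ := List.mem_map.1 ha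
      exact B.hsy b
    · rw [Function.update_of_ne hk] at ha
      simp at ha
  | succ t ih =>
    rw [conf_succ]
    refine ⟨B.hnext _ ih.1 _, fun k a ha => ?_⟩
    by_cases hk : k = B.M.stk (B.conf l t).1
    · subst hk
      simp only [EM.step, Function.update_self] at ha
      cases hact : B.M.act (B.conf l t).1 with
      | keep => rw [hact] at ha; exact ih.2 _ a ha
      | pop => rw [hact] at ha; exact ih.2 _ a (List.mem_of_mem_tail ha)
      | push b =>
        rw [hact] at ha
        rcases List.mem_cons.1 ha with rfl | ha
        · exact B.hpush _ ih.1 _ hact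
        · exact ih.2 _ a ha
    · simp only [EM.step, Function.update_of_ne hk] at ha
      exact ih.2 k a ha

omit [DecidableEq A] in
theorem getElem?_mem_AO (l : List Bool) (t : ℕ) (k : K) (i : ℕ) :
    ((B.conf l t).2 k)[i]? ∈ B.AO := by
  unfold AO
  cases h : ((B.conf l t).2 k)[i]? with
  | none => exact List.mem_cons_self
  | some a =>
    exact List.mem_cons_of_mem _ (List.mem_map.2 ⟨a, (B.conf_mem l t).2 k a
      (List.mem_of_getElem? h), rfl⟩)

omit [DecidableEq A] in
theorem step_stack (c : Q × (K → List A)) (k : K) :
    (B.M.step c).2 k = (B.actAt c.1 k).app (c.2 k) := by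
  unfold EM.step actAt
  by_cases hk : B.M.stk c.1 = k
  · subst hk
    simp
  · simp only [if_neg hk, Act.app]
    rw [Function.update_of_ne (Ne.symm hk)]

/-- The truth assignment given by a run. -/
def assign (l : List Bool) (v : VN) : Prop :=
  (∃ t, v = B.nc t (B.conf l t).1) ∨ (∃ t k i, v = B.ns t k i ((B.conf l t).2 k)[i]?)

omit [DecidableEq A] in
theorem assign_nc {l : List Bool} {t : ℕ} {q : Q} (hq : q ∈ B.QL) :
    B.assign l (B.nc t q) ↔ (B.conf l t).1 = q := by
  constructor
  · rintro (⟨t', h⟩ | ⟨t', k, i, h⟩)
    · simp only [nc, Prod.mk.injEq, D.cons.injEq, true_and] at h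
      obtain ⟨rfl, h⟩ := h
      exact (B.hcq _ hq _ (B.conf_mem l t).1 h).symm
    · simp only [nc, ns, Prod.mk.injEq, D.cons.injEq] at h
      exact absurd h.2.2.1 (by simp)
  · rintro rfl
    exact Or.inl ⟨t, rfl⟩

omit [DecidableEq A] in
theorem assign_ns {l : List Bool} {t : ℕ} {k : K} {i : ℕ} {a : Option A} (ha : a ∈ B.AO) :
    B.assign l (B.ns t k i a) ↔ ((B.conf l t).2 k)[i]? = a := by
  constructor
  · rintro (⟨t', h⟩ | ⟨t', k', i', h⟩)
    · simp only [nc, ns, Prod.mk.injEq, D.cons.injEq] at h
      exact absurd h.2.2.1 (by simp)
    · simp only [ns, Prod.mk.injEq, D.cons.injEq, true_and] at h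
      obtain ⟨rfl, rfl, h1, h2⟩ := h
      have hk := B.hck _ _ h1
      subst hk
      exact (B.hca _ ha _ (B.getElem?_mem_AO l t k i) h2).symm
  · rintro rfl
    exact Or.inr ⟨t, k, i, rfl⟩

omit [DecidableEq A] in
theorem start_stack (l : List Bool) (k : K) (i : ℕ) :
    ((B.conf l 0).2 k)[i]? = if k = B.k0 then l[i]?.map B.sy else none := by
  change (Function.update (fun _ => []) B.k0 (l.map B.sy) k)[i]? = _
  by_cases hk : k = B.k0
  · subst hk
    simp
  · rw [Function.update_of_ne hk, if_neg hk]
    simp

omit [DecidableEq K] [DecidableEq A] in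
theorem some_sy_mem (b : Bool) : some (B.sy b) ∈ B.AO :=
  List.mem_cons_of_mem _ (List.mem_map.2 ⟨_, B.hsy b, rfl⟩)

omit [DecidableEq K] [DecidableEq A] in
theorem none_mem : none ∈ B.AO := List.mem_cons_self

/-- An accepting run satisfies the instance. -/
theorem sat_of_accepts {y u : List Bool} {W T Mx : ℕ} (hu : u.length = W)
    (h : B.accepts (y ++ u) T) : Sat3 (B.tableau y W T Mx) := by
  set l := y ++ u with hl
  refine ⟨B.assign l, fun c hc => ?_⟩
  simp only [tableau, List.mem_append, List.mem_cons, List.mem_flatMap, List.mem_range] at hc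
  rcases hc with ⟨t, ht, i, hi, hc⟩ | rfl | hc | hc | hc
  · -- transitions
    simp only [stepClauses, List.mem_append, List.mem_flatMap, List.mem_map] at hc
    rcases hc with ⟨q, hq, a, ha, rfl⟩ | ⟨q, hq, k, hk, a, ha, hc⟩
    · rw [ctlClause, imp2_holds, B.assign_nc hq, B.assign_ns ha, B.assign_nc (B.hnext q hq a)]
      intro h1 h2
      rw [conf_succ]
      simp only [EM.step]
      rw [h1]
      congr 1
      rw [← h2, List.head?_eq_getElem?]
    · have hst := B.step_stack (B.conf l t) k
      rw [← conf_succ] at hst
      unfold cellClauses at hc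
      cases hact : B.actAt q k with
      | keep =>
        rw [hact] at hc
        simp only [List.mem_singleton] at hc
        subst hc
        rw [imp2_holds, B.assign_nc hq, B.assign_ns ha, B.assign_ns ha]
        intro h1 h2
        rw [hst, h1, hact]
        exact h2
      | pop =>
        rw [hact] at hc
        simp only [List.mem_singleton] at hc
        subst hc
        rw [imp2_holds, B.assign_nc hq, B.assign_ns ha, B.assign_ns ha]
        intro h1 h2
        rw [hst, h1, hact]
        simp only [Act.app, List.getElem?_tail]
        exact h2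
      | push b =>
        rw [hact] at hc
        simp only [List.mem_cons, List.not_mem_nil, or_false] at hc
        rcases hc with rfl | rfl
        · rw [imp2_holds, B.assign_nc hq, B.assign_ns ha, B.assign_ns ha]
          intro h1 h2
          rw [hst, h1, hact]
          simp only [Act.app, List.getElem?_cons_succ]
          exact h2
        · have hb : some b ∈ B.AO := by
            refine List.mem_cons_of_mem _ (List.mem_map.2 ⟨b, ?_, rfl⟩)
            unfold actAt at hact
            split at hact
            · exact B.hpush q hq b hact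
            · cases hact
          rw [imp2_holds, B.assign_nc hq, B.assign_ns hb]
          intro h1 _
          rw [hst, h1, hact]
          simp [Act.app]
  · rw [fact_holds, B.assign_nc B.h0]
    rfl
  · simp only [emptyClauses, List.mem_flatMap, List.mem_filter, List.mem_map] at hc
    obtain ⟨k, ⟨_, hk⟩, i, _, rfl⟩ := hc
    rw [fact_holds, B.assign_ns B.none_mem, B.start_stack, if_neg (by simpa using hk)]
  · simp only [inputClauses, List.mem_append, List.mem_map, List.mem_range] at hc
    rcases hc with ⟨⟨b, i⟩, hp, rfl⟩ | ⟨j, hj, rfl⟩ | ⟨j, hj, rfl⟩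
    · have hy : y[i]? = some b := by
        rw [List.mk_mem_zipIdx_iff_getElem?] at hp
        exact hp
      have hi : i < y.length := (List.getElem?_eq_some_iff.1 hy).1
      have hli : l[i]? = some b := by rw [hl, List.getElem?_append_left hi]; exact hy
      cases b
      · rw [cond_false, fact_holds, B.assign_ns (B.some_sy_mem _), B.start_stack, if_pos rfl, hli]
        rfl
      · rw [cond_true, fact_holds, B.assign_ns (B.some_sy_mem _), B.start_stack, if_pos rfl, hli]
        rfl
    · rw [or2_holds, B.assign_ns (B.some_sy_mem _), B.assign_ns (B.some_sy_mem _), B.start_stack,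
        if_pos rfl, hl, List.getElem?_append_right (by omega)]
      have : y.length + j - y.length = j := by omega
      rw [this]
      have hj' : j < u.length := by omega
      rw [List.getElem?_eq_getElem hj']
      cases u[j]
      · left; rfl
      · right; rfl
    · rw [fact_holds, B.assign_ns B.none_mem, B.start_stack, if_pos rfl]
      have : l[y.length + W + j]? = none := by
        rw [List.getElem?_eq_none_iff, hl, List.length_append]
        omega
      rw [this]
      rfl
  · simp only [finalClauses, List.mem_map, List.mem_filter] at hc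
    obtain ⟨a, ⟨ha, hne⟩, rfl⟩ := hc
    rw [nfact_holds, B.assign_ns ha]
    intro h2
    have hne' : a ≠ some B.acc := by simpa using hne
    apply hne'
    rw [← h2, ← h, List.head?_eq_getElem?]

/-- From a satisfying assignment we get an accepting run. -/
theorem accepts_of_sat {y : List Bool} {W T Mx : ℕ} (hMx : T < Mx)
    (h : Sat3 (B.tableau y W T Mx)) : ∃ u : List Bool, u.length = W ∧ B.accepts (y ++ u) T := by
  classical
  obtain ⟨τ, hτ⟩ := h
  -- the guess
  let u : List Bool := List.ofFn (n := W) fun j =>
    decide (τ (B.ns 0 B.k0 (y.length + j) (some (B.sy true))))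
  have hu : u.length = W := by simp [u]
  refine ⟨u, hu, ?_⟩
  set l := y ++ u with hl
  have hτ' : ∀ c, c ∈ B.tableau y W T Mx → Cl.holds τ c := hτ
  simp only [tableau, List.mem_append, List.mem_cons, List.mem_flatMap, List.mem_range] at hτ'
  have key : ∀ t ≤ T, τ (B.nc t (B.conf l t).1) ∧
      ∀ k i, i + t < Mx → τ (B.ns t k i ((B.conf l t).2 k)[i]?) := by
    intro t
    induction t with
    | zero =>
      intro _
      refine ⟨?_, fun k i hi => ?_⟩
      · have := hτ' _ (Or.inr (Or.inl rfl))
        rw [fact_holds] at this
        exact this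
      · rw [B.start_stack]
        by_cases hk : k = B.k0
        · rw [if_pos hk]
          subst hk
          by_cases h1 : i < y.length
          · have hin : (if y[i] = true then (fact (B.ns 0 B.k0 i (some (B.sy true))))
                else (fact (B.ns 0 B.k0 i (some (B.sy false))))) ∈
                B.inputClauses y W Mx := by
              unfold inputClauses
              refine List.mem_append_left _ (List.mem_map.2 ⟨(y[i], i), ?_, ?_⟩)
              · rw [List.mk_mem_zipIdx_iff_getElem?]
                exact List.getElem?_eq_getElem h1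
              · cases y[i] <;> rfl
            have h2 := hτ' _ (Or.inr (Or.inr (Or.inr (Or.inl hin))))
            rw [hl, List.getElem?_append_left h1, List.getElem?_eq_getElem h1]
            cases hy : y[i] with
            | false =>
              rw [hy, if_neg (by simp), fact_holds] at h2
              exact h2
            | true =>
              rw [hy, if_pos rfl, fact_holds] at h2
              exact h2
          · by_cases h2 : i < y.length + W
            · obtain ⟨j, rfl⟩ : ∃ j, i = y.length + j := ⟨i - y.length, by omega⟩
              have hj : j < W := by omega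
              have hin : or2 (B.ns 0 B.k0 (y.length + j) (some (B.sy false)))
                  (B.ns 0 B.k0 (y.length + j) (some (B.sy true))) ∈ B.inputClauses y W Mx := by
                unfold inputClauses
                refine List.mem_append_right _ (List.mem_append_left _
                  (List.mem_map.2 ⟨j, List.mem_range.2 hj, rfl⟩))
              have h3 := hτ' _ (Or.inr (Or.inr (Or.inr (Or.inl hin))))
              rw [or2_holds] at h3
              have h4 : l[y.length + j]? =
                  some (decide (τ (B.ns 0 B.k0 (y.length + j) (some (B.sy true))))) := by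
                rw [hl, List.getElem?_append_right (by omega)]
                have : y.length + j - y.length = j := by omega
                rw [this, List.getElem?_eq_getElem (by omega)]
                simp [u]
              rw [h4]
              by_cases h5 : τ (B.ns 0 B.k0 (y.length + j) (some (B.sy true)))
              · rw [decide_eq_true h5]
                exact h5
              · rw [decide_eq_false h5]
                exact h3.resolve_right h5
            · obtain ⟨j, rfl⟩ : ∃ j, i = y.length + W + j := ⟨i - y.length - W, by omega⟩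
              have hin : fact (B.ns 0 B.k0 (y.length + W + j) none) ∈ B.inputClauses y W Mx := by
                unfold inputClauses
                refine List.mem_append_right _ (List.mem_append_right _
                  (List.mem_map.2 ⟨j, List.mem_range.2 (by omega), rfl⟩))
              have h3 := hτ' _ (Or.inr (Or.inr (Or.inr (Or.inl hin))))
              rw [fact_holds] at h3
              have h4 : l[y.length + W + j]? = none := by
                rw [List.getElem?_eq_none_iff, hl, List.length_append]
                omega
              rw [h4]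
              exact h3
        · rw [if_neg hk]
          have hin : fact (B.ns 0 k i none) ∈ B.emptyClauses Mx := by
            unfold emptyClauses
            refine List.mem_flatMap.2 ⟨k, List.mem_filter.2 ⟨B.hK k, by simpa using hk⟩,
              List.mem_map.2 ⟨i, List.mem_range.2 (by omega), rfl⟩⟩
          have h3 := hτ' _ (Or.inr (Or.inr (Or.inl hin)))
          rw [fact_holds] at h3
          exact h3
    | succ t ih =>
      intro ht
      obtain ⟨ih1, ih2⟩ := ih (by omega)
      have hq := (B.conf_mem l t).1
      have hstep : ∀ i < Mx, ∀ c ∈ B.stepClauses t i, Cl.holds τ c := fun i hi c hc =>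
        hτ' c (Or.inl ⟨t, by omega, i, hi, hc⟩)
      refine ⟨?_, fun k i hi => ?_⟩
      · have h0 := ih2 (B.M.stk (B.conf l t).1) 0 (by omega)
        have hin : B.ctlClause (B.conf l t).1 ((B.conf l t).2 (B.M.stk (B.conf l t).1))[0]? t ∈
            B.stepClauses t 0 := by
          unfold stepClauses
          exact List.mem_append_left _ (List.mem_flatMap.2 ⟨_, hq, List.mem_map.2
            ⟨_, B.getElem?_mem_AO l t _ 0, rfl⟩⟩)
        have h1 := hstep 0 (by omega) _ hin
        rw [ctlClause, imp2_holds] at h1
        have h2 := h1 ih1 h0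
        rw [conf_succ]
        simp only [EM.step]
        rw [List.head?_eq_getElem?]
        exact h2
      · rw [conf_succ, B.step_stack]
        have hin : ∀ j < Mx, ∀ a ∈ B.AO, ∀ c ∈ B.cellClauses (B.conf l t).1 k a t j,
            Cl.holds τ c := by
          intro j hj a ha c hc
          refine hstep j hj c ?_
          unfold stepClauses
          exact List.mem_append_right _ (List.mem_flatMap.2 ⟨_, hq, List.mem_flatMap.2
            ⟨k, B.hK k, List.mem_flatMap.2 ⟨a, ha, hc⟩⟩⟩)
        cases hact : B.actAt (B.conf l t).1 k with
        | keep =>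
          have h0 := ih2 k i (by omega)
          have h1 := hin i (by omega) _ (B.getElem?_mem_AO l t k i)
            (imp2 (B.nc t (B.conf l t).1) (B.ns t k i ((B.conf l t).2 k)[i]?)
              (B.ns (t + 1) k i ((B.conf l t).2 k)[i]?)) (by
                unfold cellClauses; rw [hact]; simp)
          rw [imp2_holds] at h1
          exact h1 ih1 h0
        | pop =>
          have h0 := ih2 k (i + 1) (by omega)
          have h1 := hin i (by omega) _ (B.getElem?_mem_AO l t k (i + 1))
            (imp2 (B.nc t (B.conf l t).1) (B.ns t k (i + 1) ((B.conf l t).2 k)[i + 1]?)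
              (B.ns (t + 1) k i ((B.conf l t).2 k)[i + 1]?)) (by
                unfold cellClauses; rw [hact]; simp)
          rw [imp2_holds] at h1
          simp only [Act.app, List.getElem?_tail]
          exact h1 ih1 h0
        | push b =>
          cases i with
          | zero =>
            have h1 := hin 0 (by omega) _ (B.getElem?_mem_AO l t k 0)
              (imp2 (B.nc t (B.conf l t).1) (B.nc t (B.conf l t).1)
                (B.ns (t + 1) k 0 (some b))) (by
                  unfold cellClauses; rw [hact]; simp)
            rw [imp2_holds] at h1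
            simpa [Act.app] using h1 ih1 ih1
          | succ i =>
            have h0 := ih2 k i (by omega)
            have h1 := hin i (by omega) _ (B.getElem?_mem_AO l t k i)
              (imp2 (B.nc t (B.conf l t).1) (B.ns t k i ((B.conf l t).2 k)[i]?)
                (B.ns (t + 1) k (i + 1) ((B.conf l t).2 k)[i]?)) (by
                  unfold cellClauses; rw [hact]; simp)
            rw [imp2_holds] at h1
            simp only [Act.app, List.getElem?_cons_succ]
            exact h1 ih1 h0
  obtain ⟨_, h2⟩ := key T (le_refl _)
  have h3 := h2 B.k1 0 (by omega)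
  unfold accepts
  rw [List.head?_eq_getElem?]
  by_contra hne
  have hin : nfact (B.ns T B.k1 0 ((B.conf l T).2 B.k1)[0]?) ∈ B.finalClauses T := by
    unfold finalClauses
    exact List.mem_map.2 ⟨_, List.mem_filter.2 ⟨B.getElem?_mem_AO l T B.k1 0, by simpa using hne⟩,
      rfl⟩
  have h4 := hτ' _ (Or.inr (Or.inr (Or.inr (Or.inr hin))))
  rw [nfact_holds] at h4
  exact h4 h3

/-- Correctness of the tableau. -/
theorem sat_iff {y : List Bool} {W T Mx : ℕ} (hMx : T < Mx) :
    Sat3 (B.tableau y W T Mx) ↔ ∃ u : List Bool, u.length = W ∧ B.accepts (y ++ u) T :=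
  ⟨B.accepts_of_sat hMx, fun ⟨_, hu, h⟩ => B.sat_of_accepts hu h⟩

end Tab

end Pool.Agent.CookLevin
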